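import Pool.Agent.H28.MCL.Targets

/-!
AVG: the average over the windows at a good `N`
-/

set_option autoImplicit false

open Finset Filter Topology

namespace Pool.Agent.H36.MCL

open Pool.Agent.H28.MCL

theorem avg_cnt (a b q v : ℕ) (hq : 0 < q) (hab : a ≤ b) :
    (((Finset.Ico a b).filter (fun n => n ≡ v [MOD q])).card : ℝ) ≤ ((b : ℝ) - a) / q + 1 := by
  have hq' : (0 : ℚ) < q := by exact_mod_cast hq
  have h1 := Nat.Ico_filter_modEq_card a b hq v
  have h2 : (((Finset.Ico a b).filter (fun n => n ≡ v [MOD q])).card : ℚ) ≤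
      ((b : ℚ) - a) / q + 1 := by
    have h3 : ((((Finset.Ico a b).filter (fun n => n ≡ v [MOD q])).card : ℤ) : ℚ) =
        ((max (⌈((b : ℚ) - v) / q⌉ - ⌈((a : ℚ) - v) / q⌉) 0 : ℤ) : ℚ) := by rw [h1]
    have h5 : (((Finset.Ico a b).filter (fun n => n ≡ v [MOD q])).card : ℚ) =
        ((max (⌈((b : ℚ) - v) / q⌉ - ⌈((a : ℚ) - v) / q⌉) 0 : ℤ) : ℚ) := by
      rw [← h3]
      push_cast
      rfl
    rw [h5]
    push_cast
    refine max_le ?_ ?_
    · have h6 := Int.ceil_lt_add_one (((b : ℚ) - v) / q)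
      have h7 := Int.le_ceil (((a : ℚ) - v) / q)
      have h8 : ((b : ℚ) - v) / q = ((b : ℚ) - a) / q + ((a : ℚ) - v) / q := by ring
      linarith
    · have : (a : ℚ) ≤ b := by exact_mod_cast hab
      have : 0 ≤ ((b : ℚ) - a) / q := div_nonneg (by linarith) hq'.le
      linarith
  have h9 : ((((Finset.Ico a b).filter (fun n => n ≡ v [MOD q])).card : ℚ) : ℝ) ≤
      ((((b : ℚ) - a) / q + 1 : ℚ) : ℝ) := by exact_mod_cast h2
  push_cast at h9
  exact h9

theorem avg (hc : T_CNT) : T_AVG := by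
  classical
  intro b θ q n₀ N H T hb hθ hq hqH hHN hqT hTN hG
  have _ := hc
  have hqR : (0 : ℝ) < q := by exact_mod_cast hq
  have hT0 : 0 < T := lt_of_lt_of_le hq hqT
  have hH0 : 0 < H := lt_of_lt_of_le hq hqH
  have hTR : (0 : ℝ) < T := by exact_mod_cast hT0
  have hHR : (0 : ℝ) < H := by exact_mod_cast hH0
  have hqHR : (q : ℝ) ≤ H := by exact_mod_cast hqH
  have hqTR : (q : ℝ) ≤ T := by exact_mod_cast hqT
  have hsh : ∀ n, ∑ s ∈ Finset.Icc 1 T, b (n + s) = ∑ z ∈ Finset.Ioc n (n + T), b z := by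
    intro n
    have e : Finset.Ioc n (n + T) = (Finset.Icc 1 T).map (addLeftEmbedding n) := by
      ext z
      simp only [Finset.mem_Ioc, Finset.mem_map, Finset.mem_Icc, addLeftEmbedding_apply]
      constructor
      · intro h
        exact ⟨z - n, by omega, by omega⟩
      · rintro ⟨s, h1, h2⟩
        omega
    rw [e, Finset.sum_map]
    rfl
  have hsub : ∀ n ∈ iv N H q n₀, Finset.Ioc n (n + T) ⊆ Finset.Ioc (N - H) (N + T) := by
    intro n hn z hz
    unfold iv at hn
    rw [Finset.mem_filter, Finset.mem_Ioc] at hn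
    rw [Finset.mem_Ioc] at hz ⊢
    omega
  have hwin : ∑ z ∈ Finset.Ioc (N - H) (N + T), b z ≤ θ * H + θ * T := by
    have h1 := (hG H hH0 hHN).1
    have h2 := (hG T hT0 hTN).2
    have e : Finset.Ioc (N - H) (N + T) = Finset.Ioc (N - H) N ∪ Finset.Ioc N (N + T) := by
      rw [Finset.Ioc_union_Ioc_eq_Ioc (by omega) (by omega)]
    have hd : Disjoint (Finset.Ioc (N - H) N) (Finset.Ioc N (N + T)) := by
      rw [Finset.disjoint_left]
      intro z h3 h4
      rw [Finset.mem_Ioc] at h3 h4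
      omega
    rw [e, Finset.sum_union hd]
    exact add_le_add h1 h2
  rw [← Finset.mul_sum]
  rcases le_total T H with hTH | hTH
  · -- exchange the sums
    have hTHR : (T : ℝ) ≤ H := by exact_mod_cast hTH
    have h1 : ∑ n ∈ iv N H q n₀, ∑ s ∈ Finset.Icc 1 T, b (n + s) ≤
        ∑ z ∈ Finset.Ioc (N - H) (N + T), b z * ((T : ℝ) / q + 1) := by
      have h2 : ∀ n ∈ iv N H q n₀, ∑ s ∈ Finset.Icc 1 T, b (n + s) =
          ∑ z ∈ Finset.Ioc (N - H) (N + T), if n < z ∧ z ≤ n + T then b z else 0 := by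
        intro n hn
        rw [hsh n, ← Finset.sum_filter]
        refine Finset.sum_congr ?_ fun _ _ => rfl
        ext z
        rw [Finset.mem_filter]
        constructor
        · intro hz
          exact ⟨hsub n hn hz, Finset.mem_Ioc.1 hz⟩
        · rintro ⟨-, hz⟩
          exact Finset.mem_Ioc.2 hz
      rw [Finset.sum_congr rfl h2, Finset.sum_comm]
      refine Finset.sum_le_sum fun z _ => ?_
      rw [← Finset.sum_filter, Finset.sum_const, nsmul_eq_mul, mul_comm]
      refine mul_le_mul_of_nonneg_left ?_ (hb z)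
      have h3 : (iv N H q n₀).filter (fun n => n < z ∧ z ≤ n + T) ⊆
          (Finset.Ico (z - T) (z - T + T)).filter (fun n => n ≡ n₀ [MOD q]) := by
        intro n hn
        unfold iv at hn
        rw [Finset.mem_filter, Finset.mem_filter] at hn
        rw [Finset.mem_filter, Finset.mem_Ico]
        exact ⟨by omega, hn.1.2⟩
      have h4 := avg_cnt (z - T) (z - T + T) q n₀ hq (by omega)
      have h5 : (((iv N H q n₀).filter (fun n => n < z ∧ z ≤ n + T)).card : ℝ) ≤
          (((Finset.Ico (z - T) (z - T + T)).filter (fun n => n ≡ n₀ [MOD q])).card : ℝ) := by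
        exact_mod_cast Finset.card_le_card h3
      refine h5.trans (h4.trans ?_)
      push_cast
      apply le_of_eq
      ring
    rw [← Finset.sum_mul] at h1
    have h6 : (T : ℝ) / q + 1 ≤ 2 * T / q := by
      rw [div_add_one hqR.ne', div_le_div_iff_of_pos_right hqR]
      linarith
    have h7 : (∑ z ∈ Finset.Ioc (N - H) (N + T), b z) * ((T : ℝ) / q + 1) ≤
        (2 * θ * H) * (2 * T / q) := by
      have h8 : ∑ z ∈ Finset.Ioc (N - H) (N + T), b z ≤ 2 * θ * H := by nlinarith
      have h9 : (0 : ℝ) ≤ (T : ℝ) / q + 1 := by positivity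
      have h10 : (0 : ℝ) ≤ 2 * θ * H := by positivity
      exact mul_le_mul h8 h6 h9 h10
    have h11 := h1.trans h7
    calc 1 / (T : ℝ) * ∑ n ∈ iv N H q n₀, ∑ s ∈ Finset.Icc 1 T, b (n + s)
        ≤ 1 / (T : ℝ) * ((2 * θ * H) * (2 * T / q)) :=
          mul_le_mul_of_nonneg_left h11 (by positivity)
      _ = 4 * θ * H / q := by
          field_simp
          ring
  · have hTHR : (H : ℝ) ≤ T := by exact_mod_cast hTH
    have h1 : ∀ n ∈ iv N H q n₀, ∑ s ∈ Finset.Icc 1 T, b (n + s) ≤ 2 * θ * T := by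
      intro n hn
      rw [hsh n]
      refine (Finset.sum_le_sum_of_subset_of_nonneg (hsub n hn) fun z _ _ => hb z).trans ?_
      refine hwin.trans ?_
      nlinarith
    have h2 : ∑ n ∈ iv N H q n₀, ∑ s ∈ Finset.Icc 1 T, b (n + s) ≤
        ((iv N H q n₀).card : ℝ) * (2 * θ * T) := by
      rw [← nsmul_eq_mul]
      exact Finset.sum_le_card_nsmul _ _ _ h1
    have h3 : iv N H q n₀ ⊆
        (Finset.Ico (N - H + 1) (N - H + 1 + H)).filter (fun n => n ≡ n₀ [MOD q]) := by
      intro n hn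
      unfold iv at hn
      rw [Finset.mem_filter, Finset.mem_Ioc] at hn
      rw [Finset.mem_filter, Finset.mem_Ico]
      exact ⟨by omega, hn.2⟩
    have h4 := avg_cnt (N - H + 1) (N - H + 1 + H) q n₀ hq (by omega)
    have h5 : ((iv N H q n₀).card : ℝ) ≤ (H : ℝ) / q + 1 := by
      refine (show ((iv N H q n₀).card : ℝ) ≤ _ from by
        exact_mod_cast Finset.card_le_card h3).trans (h4.trans ?_)
      push_cast
      apply le_of_eq
      ring
    have h6 : (H : ℝ) / q + 1 ≤ 2 * H / q := by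
      rw [div_add_one hqR.ne', div_le_div_iff_of_pos_right hqR]
      linarith
    have h7 : ∑ n ∈ iv N H q n₀, ∑ s ∈ Finset.Icc 1 T, b (n + s) ≤
        (2 * H / q) * (2 * θ * T) :=
      h2.trans (mul_le_mul_of_nonneg_right (h5.trans h6) (by positivity))
    calc 1 / (T : ℝ) * ∑ n ∈ iv N H q n₀, ∑ s ∈ Finset.Icc 1 T, b (n + s)
        ≤ 1 / (T : ℝ) * ((2 * H / q) * (2 * θ * T)) :=
          mul_le_mul_of_nonneg_left h7 (by positivity)
      _ = 4 * θ * H / q := by
          field_simp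
          ring

end Pool.Agent.H36.MCL
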