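import Pool.Agent.H28.MCL.Targets

/-!
CSQ: classes of `n` and the Cauchy-Schwarz inequality
-/

set_option autoImplicit false

open Finset Filter Topology

namespace Pool.Agent.H36.MCL

open Pool.Agent.H28.MCL

theorem csq_card (q W n₀ : ℕ) (hq : 0 < q) (hqW : q ∣ W) :
    (((Finset.range W).filter (fun c => c ≡ n₀ [MOD q])).card : ℝ) = (W : ℝ) / q := by
  obtain ⟨k, rfl⟩ := hqW
  have h1 : ((Finset.range (q * k)).filter (fun c => c ≡ n₀ [MOD q])).card = k := by
    have e : (Finset.range (q * k)).filter (fun c => c ≡ n₀ [MOD q]) =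
        (Finset.range k).image (fun j => q * j + n₀ % q) := by
      ext c
      simp only [Finset.mem_filter, Finset.mem_range, Finset.mem_image, Nat.ModEq]
      constructor
      · rintro ⟨h1, h2⟩
        refine ⟨c / q, Nat.div_lt_of_lt_mul h1, ?_⟩
        rw [← h2]
        exact Nat.div_add_mod c q
      · rintro ⟨j, h1, rfl⟩
        have h3 := Nat.mod_lt n₀ hq
        constructor
        · nlinarith
        · rw [Nat.mul_add_mod, Nat.mod_mod]
    rw [e, Finset.card_image_of_injective, Finset.card_range]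
    intro a b h
    have h' : q * a + n₀ % q = q * b + n₀ % q := h
    exact Nat.eq_of_mul_eq_mul_left hq (by omega)
  rw [h1]
  push_cast
  have : (q : ℝ) ≠ 0 := by exact_mod_cast hq.ne'
  field_simp

theorem csq_box {m : ℕ} (hc : T_CNT) (q W T c : ℕ) (τ : Fin m → ℕ) (A : Fin m → Finset ℕ)
    (hW : 0 < W) (hA : ∀ l, A l ⊆ Finset.range W) :
    (((bx m T q τ).filter (fun t => ∀ l, (c + t l) % W ∈ A l)).card : ℝ) ≤ pp W A T := by
  classical
  have h1 : (bx m T q τ).filter (fun t => ∀ l, (c + t l) % W ∈ A l) ⊆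
      Fintype.piFinset (fun l => (Finset.Icc 1 T).filter (fun t => (c + t) % W ∈ A l)) := by
    intro t ht
    unfold bx at ht
    rw [Finset.mem_filter, Finset.mem_filter, Fintype.mem_piFinset] at ht
    rw [Fintype.mem_piFinset]
    intro l
    rw [Finset.mem_filter]
    exact ⟨ht.1.1 l, ht.2 l⟩
  have h2 := Finset.card_le_card h1
  rw [Fintype.card_piFinset] at h2
  have h3 : (((bx m T q τ).filter (fun t => ∀ l, (c + t l) % W ∈ A l)).card : ℝ) ≤
      ∏ l, (((Finset.Icc 1 T).filter (fun t => (c + t) % W ∈ A l)).card : ℝ) := by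
    exact_mod_cast h2
  refine h3.trans ?_
  unfold pp
  exact Finset.prod_le_prod (fun l _ => Nat.cast_nonneg _)
    fun l _ => (hc W c T (A l) hW (hA l)).1

theorem csq (hc : T_CNT) : T_CSQ := by
  classical
  intro m q W n₀ τ A g w N H T hq hW hqW hA hHN
  obtain ⟨C, hC⟩ : ∃ C : Finset ℕ,
      C = (Finset.range W).filter (fun c => c ≡ n₀ [MOD q]) := ⟨_, rfl⟩
  obtain ⟨S, hS⟩ : ∃ S : (Fin m → ℕ) → ℕ → ℝ, S = fun t c =>
      ∑ n ∈ iv N H W c, w n * ∏ l, gc W A g l (n + t l) := ⟨_, rfl⟩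
  have hsplit : ∀ F : ℕ → ℝ, ∑ n ∈ iv N H q n₀, F n = ∑ c ∈ C, ∑ n ∈ iv N H W c, F n := by
    intro F
    rw [← Finset.sum_biUnion]
    · refine Finset.sum_congr ?_ fun _ _ => rfl
      ext n
      unfold iv
      rw [hC]
      simp only [Finset.mem_filter, Finset.mem_biUnion, Finset.mem_range]
      constructor
      · rintro ⟨h1, h2⟩
        refine ⟨n % W, ⟨Nat.mod_lt _ hW, ?_⟩, h1, (Nat.mod_modEq n W).symm⟩
        exact ((Nat.mod_modEq n W).of_dvd hqW).trans h2
      · rintro ⟨c, ⟨-, h2⟩, h3, h4⟩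
        exact ⟨h3, (h4.of_dvd hqW).trans h2⟩
    · intro a ha b hb hab
      rw [Function.onFun, Finset.disjoint_left]
      intro n h1 h2
      unfold iv at h1 h2
      rw [Finset.mem_filter] at h1 h2
      rw [hC, Finset.mem_coe, Finset.mem_filter, Finset.mem_range] at ha hb
      apply hab
      have h3 : a % W = b % W := h1.2.symm.trans h2.2
      rwa [Nat.mod_eq_of_lt ha.1, Nat.mod_eq_of_lt hb.1] at h3
  have hle : lhs q n₀ τ (gc W A g) w N H T ≤ ∑ t ∈ bx m T q τ, ∑ c ∈ C, |S t c| := by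
    unfold lhs
    refine Finset.sum_le_sum fun t _ => ?_
    rw [hsplit, hS]
    exact Finset.abs_sum_le_sum_abs _ _
  have hzero : ∀ (t : Fin m → ℕ) (c : ℕ), (¬ ∀ l, (c + t l) % W ∈ A l) → S t c = 0 := by
    intro t c h
    rw [not_forall] at h
    obtain ⟨l, hl⟩ := h
    rw [hS]
    show ∑ n ∈ iv N H W c, w n * ∏ l, gc W A g l (n + t l) = 0
    refine Finset.sum_eq_zero fun n hn => ?_
    unfold iv at hn
    rw [Finset.mem_filter] at hn
    have h1 : (n + t l) % W = (c + t l) % W := Nat.ModEq.add_right (t l) hn.2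
    have h2 : gc W A g l (n + t l) = 0 := by
      unfold gc
      rw [h1, if_neg hl]
    rw [Finset.prod_eq_zero (Finset.mem_univ l) h2, mul_zero]
  obtain ⟨P, hP⟩ : ∃ P : Finset ((Fin m → ℕ) × ℕ), P = ((bx m T q τ) ×ˢ C).filter
      (fun z => ∀ l, (z.2 + z.1 l) % W ∈ A l) := ⟨_, rfl⟩
  have hsum : ∀ F : (Fin m → ℕ) → ℕ → ℝ,
      (∀ (t : Fin m → ℕ) (c : ℕ), (¬ ∀ l, (c + t l) % W ∈ A l) → F t c = 0) →
      ∑ t ∈ bx m T q τ, ∑ c ∈ C, F t c = ∑ z ∈ P, F z.1 z.2 := by
    intro F hF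
    rw [hP, ← Finset.sum_product', Finset.sum_filter]
    refine Finset.sum_congr rfl fun z _ => ?_
    split_ifs with h
    · rfl
    · exact hF _ _ h
  have hcard : (P.card : ℝ) ≤ (W : ℝ) / q * pp W A T := by
    have h1 : (P.card : ℝ) = ∑ c ∈ C,
        (((bx m T q τ).filter (fun t => ∀ l, (c + t l) % W ∈ A l)).card : ℝ) := by
      rw [hP, Finset.card_filter, Finset.sum_product_right]
      push_cast
      refine Finset.sum_congr rfl fun c _ => ?_
      rw [Finset.card_filter]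
      push_cast
      rfl
    rw [h1]
    refine (Finset.sum_le_sum fun c _ => csq_box hc q W T c τ A hW hA).trans ?_
    rw [Finset.sum_const, nsmul_eq_mul, hC, csq_card q W n₀ hq hqW]
  have hlhs0 : 0 ≤ lhs q n₀ τ (gc W A g) w N H T := by
    unfold lhs
    exact Finset.sum_nonneg fun _ _ => abs_nonneg _
  have h1 := hsum (fun t c => |S t c|) fun t c h => by
    show |S t c| = 0
    rw [hzero t c h, abs_zero]
  have h2 := hsum (fun t c => S t c ^ 2) fun t c h => by
    show S t c ^ 2 = 0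
    rw [hzero t c h, zero_pow two_ne_zero]
  have h3 : (lhs q n₀ τ (gc W A g) w N H T) ^ 2 ≤ (∑ z ∈ P, |S z.1 z.2|) ^ 2 := by
    rw [← h1]
    exact pow_le_pow_left₀ hlhs0 hle 2
  have h4 : (∑ z ∈ P, |S z.1 z.2|) ^ 2 ≤ P.card * ∑ z ∈ P, |S z.1 z.2| ^ 2 :=
    sq_sum_le_card_mul_sum_sq
  simp only [sq_abs] at h4
  have h5 : (P.card : ℝ) * ∑ z ∈ P, S z.1 z.2 ^ 2 ≤
      (W : ℝ) / q * pp W A T * ∑ z ∈ P, S z.1 z.2 ^ 2 :=
    mul_le_mul_of_nonneg_right hcard (Finset.sum_nonneg fun _ _ => sq_nonneg _)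
  rw [← h2] at h5
  have h6 := (h3.trans h4)
  rw [← h2] at h6
  have h7 := h6.trans h5
  rw [hC, hS] at h7
  exact h7

end Pool.Agent.H36.MCL
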