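import Pool.Agent.H28.MCL.Targets

/-!
YBD: the bound for `yy`
-/

set_option autoImplicit false

open Finset Filter Topology

namespace Pool.Agent.H36.MCL

open Pool.Agent.H28.MCL

theorem ybd_split (f : ℕ → ℝ) (W n T : ℕ) (A : Finset ℕ) (hA : A ⊆ Finset.range W) :
    ∑ t ∈ (Finset.Icc 1 T).filter (fun t => (n + t) % W ∈ A), f (n + t) =
      ∑ a ∈ A, ws f W a n T := by
  classical
  have h1 : ∑ t ∈ (Finset.Icc 1 T).filter (fun t => (n + t) % W ∈ A), f (n + t) =
      ∑ a ∈ A, ∑ t ∈ (Finset.Icc 1 T).filter (fun t => (n + t) % W = a), f (n + t) := by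
    rw [← Finset.sum_biUnion]
    · refine Finset.sum_congr ?_ fun _ _ => rfl
      ext t
      simp only [Finset.mem_filter, Finset.mem_biUnion]
      constructor
      · rintro ⟨h1, h2⟩
        exact ⟨_, h2, h1, rfl⟩
      · rintro ⟨a, h1, h2, h3⟩
        rw [h3]
        exact ⟨h2, h1⟩
    · intro a _ b _ hab
      rw [Function.onFun, Finset.disjoint_left]
      intro t h2 h3
      rw [Finset.mem_filter] at h2 h3
      exact hab (h2.2.symm.trans h3.2)
  rw [h1]
  refine Finset.sum_congr rfl fun a ha => ?_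
  unfold ws
  have haW : a % W = a := Nat.mod_eq_of_lt (Finset.mem_range.1 (hA ha))
  have e : (Finset.Ioc n (n + T)).filter (fun m => m ≡ a [MOD W]) =
      ((Finset.Icc 1 T).filter (fun t => (n + t) % W = a)).map (addLeftEmbedding n) := by
    ext z
    simp only [Finset.mem_filter, Finset.mem_Ioc, Finset.mem_map, Finset.mem_Icc,
      addLeftEmbedding_apply, Nat.ModEq, haW]
    constructor
    · rintro ⟨h2, h3⟩
      have h4 : n + (z - n) = z := by omega
      exact ⟨z - n, ⟨by omega, by rw [h4]; exact h3⟩, h4⟩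
    · rintro ⟨s, ⟨h2, h3⟩, h4⟩
      rw [← h4]
      exact ⟨by omega, h3⟩
  rw [e, Finset.sum_map]
  rfl

theorem ybd (h : T_SUB) : T_YBD := by
  classical
  intro m W hh T j n κ ζ A g l hA hg hW hh0 hT hκ hκ1 hζ hWζ hTζ
  have hWR : (0 : ℝ) < W := by exact_mod_cast hW
  have hhR : (0 : ℝ) < hh := by exact_mod_cast hh0
  have hTR : (0 : ℝ) < T := by exact_mod_cast hT
  obtain ⟨f, hf⟩ : ∃ f : ℕ → ℝ, f = fun y => g l y * g l (y + j * W) := ⟨_, rfl⟩
  have hf1 : ∀ y, |f y| ≤ 1 := by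
    intro y
    rw [hf]
    show |g l y * g l (y + j * W)| ≤ 1
    rw [abs_mul]
    exact mul_le_one₀ (hg l y) (abs_nonneg _) (hg l _)
  have hyy : yy W A g T l j n = |∑ a ∈ A l, ws f W a n T| := by
    rw [← ybd_split f W n T (A l) (hA l)]
    unfold yy
    rw [hf]
  have h1 : yy W A g T l j n ≤ ∑ a ∈ A l, ((T : ℝ) / W * (1 - κ) +
      (κ / W + 1 / hh) * ∑ s ∈ Finset.Icc 1 T, ind (Bad f κ W a hh) (n + s) + (2 * hh + 1)) := by
    rw [hyy]
    refine (Finset.abs_sum_le_sum_abs _ _).trans (Finset.sum_le_sum fun a _ => ?_)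
    exact h f κ W a hh n T hf1 hW hh0 hκ hκ1
  obtain ⟨S, hS⟩ : ∃ S : ℝ, S = ∑ s ∈ Finset.Icc 1 T, bc W κ hh A g l j (n + s) := ⟨_, rfl⟩
  rcases Finset.eq_empty_or_nonempty (A l) with hE | hE
  · rw [hE, Finset.sum_empty] at h1
    rw [hE, Finset.card_empty, Nat.cast_zero, zero_mul, zero_mul]
    exact h1
  have hcard : (0 : ℝ) < (A l).card := by exact_mod_cast hE.card_pos
  have hind : ∀ (P : ℕ → Prop) (z : ℕ), 0 ≤ ind P z ∧ ind P z ≤ 1 := by
    intro P z
    unfold ind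
    split_ifs
    · exact ⟨zero_le_one, le_rfl⟩
    · exact ⟨le_rfl, zero_le_one⟩
  have hbc : ∀ z, bc W κ hh A g l j z = 1 / ((A l).card : ℝ) *
      ∑ a ∈ A l, ind (Bad f κ W a hh) z := by
    intro z
    unfold bc
    rw [hf]
  have hbc1 : ∀ z, bc W κ hh A g l j z ≤ 1 := by
    intro z
    rw [hbc, one_div, inv_mul_le_iff₀ hcard, mul_one]
    have h2 := Finset.sum_le_card_nsmul (A l) (fun a => ind (Bad f κ W a hh) z) 1
      (fun a _ => (hind _ z).2)
    rw [nsmul_eq_mul, mul_one] at h2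
    exact h2
  have hSsum : ∑ a ∈ A l, ∑ s ∈ Finset.Icc 1 T, ind (Bad f κ W a hh) (n + s) =
      (A l).card * S := by
    rw [Finset.sum_comm, hS, Finset.mul_sum]
    refine Finset.sum_congr rfl fun s _ => ?_
    rw [hbc]
    field_simp
  have hST : S ≤ T := by
    rw [hS]
    have h2 := Finset.sum_le_card_nsmul (Finset.Icc 1 T)
      (fun s => bc W κ hh A g l j (n + s)) 1 (fun s _ => hbc1 _)
    rw [nsmul_eq_mul, mul_one, Nat.card_Icc] at h2
    simpa using h2
  have h3 : yy W A g T l j n ≤ (A l).card * ((T : ℝ) / W * (1 - κ) +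
      (κ / W + 1 / hh) * S + (2 * hh + 1)) := by
    refine h1.trans (le_of_eq ?_)
    have e1 : ∑ a ∈ A l, (κ / (W : ℝ) + 1 / hh) *
        ∑ s ∈ Finset.Icc 1 T, ind (Bad f κ W a hh) (n + s) =
        (κ / (W : ℝ) + 1 / hh) * ((A l).card * S) := by
      rw [← Finset.mul_sum, hSsum]
    rw [Finset.sum_add_distrib, Finset.sum_add_distrib, e1,
      Finset.sum_const, Finset.sum_const, nsmul_eq_mul, nsmul_eq_mul]
    ring
  refine h3.trans ?_
  rw [← hS, mul_assoc]
  refine mul_le_mul_of_nonneg_left ?_ hcard.le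
  have h4 : 1 / (hh : ℝ) * S ≤ ζ / 2 * (T / W) := by
    have h5 : 1 / (hh : ℝ) ≤ ζ / 2 / W := by
      rw [div_le_div_iff₀ hhR hWR]
      linarith
    calc 1 / (hh : ℝ) * S ≤ 1 / (hh : ℝ) * T := mul_le_mul_of_nonneg_left hST (by positivity)
      _ ≤ ζ / 2 / W * T := mul_le_mul_of_nonneg_right h5 hTR.le
      _ = ζ / 2 * (T / W) := by ring
  have h6 : (2 * hh + 1 : ℝ) ≤ ζ / 2 * (T / W) := by
    rw [← mul_div_assoc, le_div_iff₀ hWR]
    exact hTζ
  have h7 : (T : ℝ) / W * (1 - κ * (1 - 1 / (T : ℝ) * S) + ζ) =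
      (T : ℝ) / W * (1 - κ) + κ / W * S + (ζ / 2 * (T / W) + ζ / 2 * (T / W)) := by
    field_simp
    ring
  rw [h7, add_mul]
  linarith

end Pool.Agent.H36.MCL
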